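import Pool.Agent.MHP.StmtsC

/-! Row CMS of squad MHP: quantification over sets of vertices. -/

set_option autoImplicit false

open scoped Classical

namespace Pool.Agent.MHP.H69

open Pool.Agent.HMT

/-- a set of vertices in front of the values -/
def inS {a b c : ℕ} {V : Type} (v : Val a b c V) (S : Set V) : Val a (b + 1) c V :=
  ⟨v.x, Fin.cons S v.X, v.F⟩

theorem vl_cons (K A : PG) {a b c : ℕ} (x : Fin a → VG K A) (X : Fin b → Set (VG K A))
    (F : Fin c → Set (Sym2 (VG K A))) (S : Set (VG K A)) :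
    vl K A x (Fin.cons S X : Fin (b + 1) → Set (VG K A)) F =
      inS (vl K A x X F) {v | Sum.inl v ∈ S} := by
  unfold vl inS
  congr 1
  funext k
  refine Fin.cases ?_ (fun j => ?_) k
  · rfl
  · rfl

theorem vr_cons (K A : PG) {a b c : ℕ} (x : Fin a → VG K A) (X : Fin b → Set (VG K A))
    (F : Fin c → Set (Sym2 (VG K A))) (S : Set (VG K A)) :
    vr K A x (Fin.cons S X : Fin (b + 1) → Set (VG K A)) F =
      inS (vr K A x X F) {v | emb A.r K.r v ∈ S} := by
  unfold vr inS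
  congr 1
  funext k
  refine Fin.cases ?_ (fun j => ?_) k
  · rfl
  · rfl

theorem cms : CmsStmt := by
  rintro a b c φ ⟨Q, hQ, τ, R, h⟩
  haveI := hQ
  refine ⟨Set (Prop × Q), inferInstance,
    fun A v => {pq | ∃ S : Set A.V, pq = (A.r ∈ S, τ A (inS v S))},
    fun s t => ∃ (p p' : Prop) (q q' : Q), (p, q) ∈ s ∧ (p', q') ∈ t ∧ (p ↔ p') ∧ R q q', ?_⟩
  intro K A x X F hF
  constructor
  · rintro ⟨S, hS⟩
    have h1 := (h K A x (Fin.cons S X) F hF).1 hS
    rw [vl_cons, vr_cons] at h1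
    refine ⟨K.r ∈ {v | Sum.inl v ∈ S}, A.r ∈ {v | emb A.r K.r v ∈ S}, _, _, ⟨_, rfl⟩, ⟨_, rfl⟩,
      ?_, h1⟩
    change Sum.inl K.r ∈ S ↔ emb A.r K.r A.r ∈ S
    rw [emb_root]
  · rintro ⟨p, p', q, q', ⟨S₁, e₁⟩, ⟨S₂, e₂⟩, hp, hR⟩
    obtain ⟨rfl, rfl⟩ := Prod.mk.inj e₁
    obtain ⟨rfl, rfl⟩ := Prod.mk.inj e₂
    let S : Set (VG K A) := {z | (∃ u ∈ S₁, z = Sum.inl u) ∨ ∃ w ∈ S₂, z = emb A.r K.r w}
    have hl : {v : K.V | (Sum.inl v : VG K A) ∈ S} = S₁ := by
      ext v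
      constructor
      · rintro (⟨u, hu, e⟩ | ⟨w, hw, e⟩)
        · rw [Sum.inl.inj e]
          exact hu
        · obtain ⟨e1, e2⟩ := (inl_eq_emb A.r K.r v w).1 e
          subst e1
          subst e2
          exact hp.2 hw
      · intro hv
        exact Or.inl ⟨v, hv, rfl⟩
    have hr : {v : A.V | (emb A.r K.r v : VG K A) ∈ S} = S₂ := by
      ext v
      constructor
      · rintro (⟨u, hu, e⟩ | ⟨w, hw, e⟩)
        · obtain ⟨e1, e2⟩ := (inl_eq_emb A.r K.r u v).1 e.symm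
          subst e1
          subst e2
          exact hp.1 hu
        · rw [emb_injective A.r K.r e]
          exact hw
      · intro hv
        exact Or.inr ⟨v, hv, rfl⟩
    refine ⟨S, (h K A x (Fin.cons S X) F hF).2 ?_⟩
    rw [vl_cons, vr_cons, hl, hr]
    exact hR

end Pool.Agent.MHP.H69
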