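import Pool.Agent.MHP.Stmts

/-! Row MXC of squad MHP: the root components of subgraphs. -/

set_option autoImplicit false

open scoped Classical

namespace Pool.Agent.MHP.H69

open Pool.Agent.HMT

/-- the edges of the root component -/
def es (A : PG) : Set (Sym2 A.V) := {e | e ∈ A.G.edgeSet ∧ ∀ u ∈ e, A.G.Reachable A.r u}

theorem mem_es (A : PG) (u v : A.V) :
    s(u, v) ∈ es A ↔ A.G.Adj u v ∧ A.G.Reachable A.r u := by
  constructor
  · rintro ⟨h1, h2⟩
    exact ⟨h1, h2 u (Sym2.mem_mk_left u v)⟩
  · rintro ⟨h1, h2⟩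
    refine ⟨h1, ?_⟩
    intro w hw
    rcases Sym2.mem_iff.1 hw with rfl | rfl
    · exact h2
    · exact h2.trans h1.reachable

theorem es_eq (A : PG) :
    es A = (Sym2.map (Subtype.val : {v : A.V // A.G.Reachable A.r v} → A.V)) ''
      (A.comp.G.edgeSet : Set (Sym2 {v : A.V // A.G.Reachable A.r v})) := by
  ext e
  induction e using Sym2.ind with
  | _ u v =>
    constructor
    · intro h
      obtain ⟨h1, h2⟩ := (mem_es A u v).1 h
      have h3 : A.G.Reachable A.r v := h2.trans h1.reachable
      exact ⟨s(⟨u, h2⟩, ⟨v, h3⟩), h1, rfl⟩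
    · rintro ⟨e, he, h⟩
      rw [← h]
      clear h
      induction e using Sym2.ind with
      | _ a b => exact (mem_es A a.1 b.1).2 ⟨he, a.2⟩

theorem card_es (A : PG) : (es A).ncard = Nat.card A.comp.G.edgeSet := by
  rw [es_eq]
  exact Set.ncard_image_of_injective
    (A.comp.G.edgeSet : Set (Sym2 {v : A.V // A.G.Reachable A.r v}))
    (Sym2.map.injective Subtype.val_injective)

theorem card_of_piso {A B : PG} (h : PIso A B) :
    Nat.card A.G.edgeSet = Nat.card B.G.edgeSet := by
  obtain ⟨φ, -⟩ := h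
  exact Nat.card_congr φ.mapEdgeSet

theorem mxc : MxcStmt := by
  constructor
  · intro A Z hZ h
    have h1 : es (PG.mk A.V Z A.r) ⊆ Z.edgeSet := fun e he => he.1
    have h2 := card_es (PG.mk A.V Z A.r)
    have h3 := card_of_piso h
    have h4 : (es (PG.mk A.V Z A.r)).ncard ≤ Z.edgeSet.ncard :=
      Set.ncard_le_ncard h1 (Set.toFinite _)
    have h5 : A.G.edgeSet.ncard ≤ Z.edgeSet.ncard := by
      rw [h2, h3] at h4
      exact h4
    have h6 : Z.edgeSet ⊆ A.G.edgeSet := SimpleGraph.edgeSet_mono hZ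
    have h7 := Set.eq_of_subset_of_ncard_le h6 h5 (Set.toFinite _)
    exact SimpleGraph.edgeSet_injective h7
  · intro A B Z hZ hn hc h
    apply hn
    have h2 := card_es (PG.mk B.V Z B.r)
    have h3 := card_of_piso h
    have h4 := card_es B
    have h1 : es (PG.mk B.V Z B.r) ⊆ es B := by
      intro e he
      refine ⟨SimpleGraph.edgeSet_mono hZ he.1, fun u hu => ?_⟩
      exact (he.2 u hu).mono hZ
    have h5 : (es B).ncard ≤ (es (PG.mk B.V Z B.r)).ncard := by
      rw [h2, h3, h4]
      exact hc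
    have h6 := Set.eq_of_subset_of_ncard_le h1 h5 (Set.toFinite _)
    have hadj : ∀ u v, B.G.Adj u v → B.G.Reachable B.r u → Z.Adj u v := by
      intro u v huv hu
      have h7 : s(u, v) ∈ es B := (mem_es B u v).2 ⟨huv, hu⟩
      rw [← h6] at h7
      exact h7.1
    have hreach : ∀ v, B.G.Reachable B.r v → Z.Reachable B.r v := by
      intro v hv
      rw [SimpleGraph.reachable_iff_reflTransGen] at hv
      induction hv with
      | refl => exact SimpleGraph.Reachable.refl _
      | tail hab hbc ih =>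
        have h8 := (SimpleGraph.reachable_iff_reflTransGen _ _).2 hab
        exact ih.trans (hadj _ _ hbc h8).reachable
    obtain ⟨ψ, hψ⟩ := h
    let e : {v : B.V // B.G.Reachable B.r v} ≃ {v : B.V // Z.Reachable B.r v} :=
      Equiv.subtypeEquivRight fun v => ⟨hreach v, fun hv => hv.mono hZ⟩
    let φ : B.comp.G ≃g (PG.mk B.V Z B.r).comp.G :=
      { toEquiv := e
        map_rel_iff' := by
          intro a b
          exact ⟨fun hab => hZ hab, fun hab => hadj a.1 b.1 hab a.2⟩ }
    refine ⟨φ.trans ψ, ?_⟩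
    exact hψ

end Pool.Agent.MHP.H69
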